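import Pool.Agent.Work.MP_042f46_an.F.Cl
import Pool.Agent.Work.MP_042f46_an.Sp.Red

/-! A rational map of the Riemann sphere is injective on the closure of every Siegel disc; the
point at infinity may lie in the disc or on its boundary. -/

open Pool.Agent.Work.MP_042f46_an

namespace Pool.Agent.Results.MP_042f46_an.Sphere

theorem result :
    ∀ (p q : Polynomial ℂ) (α : ℝ) (f : OnePoint ℂ → OnePoint ℂ) (S : Set (OnePoint ℂ)),
      IsCoprime p q → 2 ≤ max p.natDegree q.natDegree → Continuous f →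
      (∀ z : ℂ, q.eval z ≠ 0 → f (z : OnePoint ℂ) = ((p.eval z / q.eval z : ℂ) : OnePoint ℂ)) →
      Irrational α → IsOpen S → IsConnected S → ((0 : ℂ) : OnePoint ℂ) ∈ S → Set.MapsTo f S S →
      (∃ h : OnePoint ℂ → ℂ, ContinuousOn h S ∧
        DifferentiableOn ℂ (fun z : ℂ => h (z : OnePoint ℂ)) {z : ℂ | (z : OnePoint ℂ) ∈ S} ∧
        Set.InjOn h S ∧ h ((0 : ℂ) : OnePoint ℂ) = 0 ∧
        ∀ x ∈ S, h (f x) = Complex.exp (2 * (Real.pi : ℂ) * Complex.I * (α : ℂ)) * h x) →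
      Set.InjOn f (closure S) := by
  rintro p q α f S hc hd hf hpq hα hS hSc h0 hm ⟨h, h1, h2, h3, h4, h5⟩
  exact Sp.reduce (Complex.exp_ne_zero _)
    (fun P Q T g a1 a2 a3 a4 a5 a6 a7 a8 a9 a10 a11 a12 =>
      Fu.main_cl P Q α T a1 a2 hα a3 a4 a5 a6 a7 a8 a9 a10 a11 a12)
    hc hd hf hpq hS hSc.isPreconnected h0 hm h1 h2 h3 h4 h5

end Pool.Agent.Results.MP_042f46_an.Sphere
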