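import Pool.Agent.Work.MP_042f46_an.T.D4
import Pool.Agent.Work.MP_042f46_an.T.R3

open Pool.Agent.Work.MP_042f46_an

namespace Pool.Agent.Results.MP_042f46_an.Typical

theorem result :
    ∀ᵐ α : ℝ, ∀ (p q : Polynomial ℂ) (S : Set ℂ),
      IsCoprime p q → 2 ≤ max p.natDegree q.natDegree →
      IsOpen S → IsConnected S → (0 : ℂ) ∈ S → Bornology.IsBounded (closure S) →
      (∀ z ∈ closure S, q.eval z ≠ 0) →
      Set.MapsTo (fun z : ℂ => p.eval z / q.eval z) S S →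
      (∃ h : ℂ → ℂ, DifferentiableOn ℂ h S ∧ Set.InjOn h S ∧ h 0 = 0 ∧
        ∀ z ∈ S, h (p.eval z / q.eval z)
          = Complex.exp (2 * (Real.pi : ℂ) * Complex.I * (α : ℂ)) * h z) →
      ∃ Φ : ℂ → ℂ, ContinuousOn Φ (Metric.closedBall 0 1) ∧ Set.InjOn Φ (Metric.closedBall 0 1) ∧
        Φ '' Metric.ball 0 1 = S ∧ Φ '' Metric.sphere 0 1 = frontier S ∧
        (∀ ζ ∈ Metric.closedBall (0 : ℂ) 1, p.eval (Φ ζ) / q.eval (Φ ζ)
          = Φ (Complex.exp (2 * (Real.pi : ℂ) * Complex.I * (α : ℂ)) * ζ)) ∧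
        Set.InjOn (fun z : ℂ => p.eval z / q.eval z) (closure S) := by
  filter_upwards [Ty.ae_typ] with α hα p q S hc hd hS hSc h0 hb hq hm ⟨h, hh, hi, hz, hf⟩
  obtain ⟨Φ, h1, h2, -, h4, h5, h6⟩ := Ty.main p q α S hc (by omega) hα hS hSc.isPreconnected h0
    (hb.subset subset_closure) hq hm hh hi hz hf
  refine ⟨Φ, h1, h2, h4, ?_, h6, ?_⟩
  · rw [hS.frontier_eq, ← h5, ← h4, ← Metric.closedBall_sdiff_ball,
      h2.image_sdiff_subset Metric.ball_subset_closedBall]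
  · rw [← h5]
    rintro _ ⟨a, ha, rfl⟩ _ ⟨b, hb', rfl⟩ k
    have k1 : Φ (e α * a) = Φ (e α * b) := (h6 a ha).symm.trans (k.trans (h6 b hb'))
    have m : ∀ ζ ∈ Metric.closedBall (0 : ℂ) 1, e α * ζ ∈ Metric.closedBall (0 : ℂ) 1 :=
      fun ζ hζ => by rwa [mem_closedBall_zero_iff, Sg_norm, ← mem_closedBall_zero_iff]
    rw [mul_left_cancel₀ (Rot_e_ne α) (h2 (m a ha) (m b hb') k1)]

end Pool.Agent.Results.MP_042f46_an.Typical
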